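import Pool.Agent.DSB.DMain
import Pool.Agent.DSB.Fin

/-! # A Dowker space with a σ-disjoint base is consistent (MP_f2e766_lc, Q1)

There is a model of `ZFC` with a Dowker space (a normal `T₁` space which is not countably paracompact) which
has a `σ`-disjoint base.

The space is added by one forcing with no iteration. The points are on `ω` levels; every point `z` has a
countable ladder of points of higher and pairwise different levels, and a generic closeness `f(z, a) ∈ ω` to
the elements `a` of its ladder; the sets `{a} ∪ {z | f(z, a) ≥ k}` generate the topology. For every label `l`
the conditions also give every point a status: a colour and a modulus, which separate the disjoint closed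
sets whose names are carried by `l`; countably many promises (the top value of `r(z, l)`) say that the colour
of the point `z` for the label `l` is the type of `l`. The main lemma, `DSB.main_lemma`: there are always
fresh points of all levels which are declared for any countable set of labels. -/

namespace Pool.Agent.Results.MP_f2e766_lc.DowkerSigmaDisjointBase

open STP DSB

theorem result : ∃ (N : Type 1) (E : N → N → Prop), ZFC E ∧ DowSD E := DSB.main_of DSB.main_lemma

end Pool.Agent.Results.MP_f2e766_lc.DowkerSigmaDisjointBase
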