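import Pool.Agent.H80Dowker.Proof

open Cardinal Pool.Agent.H80Dowker

namespace Pool.Agent.Results.MP_f2e766_lc.SmallSigmaDisjoint

universe u

/-- Every Dowker space with a σ-disjoint base has at least `𝔭` points. -/
theorem result (X : Type u) [TopologicalSpace X] (hD : IsDowker X)
    (hB : HasSigmaDisjointBase X) : Cardinal.lift.{u} pseudoIntersectionNumber ≤ #X :=
  dowker_card X hD hB

end Pool.Agent.Results.MP_f2e766_lc.SmallSigmaDisjoint
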